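import Pool.Agent.N929.AP.Main

/-!
# The numbers of fixed polyominoes: regularity to all orders

`Kl.t n` is the number of fixed `n`-ominoes (classes of connected `n`-sets of cells of the square
lattice modulo translations).
-/

set_option autoImplicit false

namespace Pool.Agent.Results.MP_56ddc0_co.AllOrders

open Filter Topology Pool.Agent.N789

/-- **Theorem.** Let `t n` be the number of fixed polyominoes with `n` cells and `lam` the limit of
`t(n)^(1/n)`. (1) For every `r ≥ 1` there is a constant `K` such that for all `n ≥ 2` the `r`-th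
difference of `log (t(n) / lam^n)` is at most `K (log n / √n)^r` in absolute value. (2) The ratios
`τ(n) = t(n+1)/t(n)` satisfy `|τ(n) - lam| ≤ K log n / √n` and `|τ(n+1) - τ(n)| ≤ K (log n)^2 / n` for
all `n ≥ 2`. -/
theorem result : ∃ lam : ℝ, 1 ≤ lam ∧
    Tendsto (fun n : ℕ => (Kl.t n : ℝ) ^ ((1 : ℝ) / n)) atTop (𝓝 lam) ∧
    (∀ r : ℕ, 1 ≤ r → ∃ K : ℝ, ∀ n : ℕ, 2 ≤ n →
      |∑ i ∈ Finset.range (r + 1), (-1 : ℝ) ^ i * (r.choose i : ℝ) *
        Real.log ((Kl.t (n + i) : ℝ) / lam ^ (n + i))| ≤ K * (Real.log n / Real.sqrt n) ^ r) ∧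
    ∃ K : ℝ, ∀ n : ℕ, 2 ≤ n →
      |(Kl.t (n + 1) : ℝ) / Kl.t n - lam| ≤ K * (Real.log n / Real.sqrt n) ∧
      |(Kl.t (n + 2) : ℝ) / Kl.t (n + 1) - (Kl.t (n + 1) : ℝ) / Kl.t n| ≤
        K * (Real.log n ^ 2 / n) := by
  have hall : ∀ r : ℕ, 1 ≤ r → ∃ K : ℝ, 0 < K ∧ ∀ n : ℕ, 2 ≤ n →
      |∑ i ∈ Finset.range (r + 1), (-1 : ℝ) ^ i * (r.choose i : ℝ) *
        Real.log ((Kl.t (n + i) : ℝ) / Kl.lam ^ (n + i))| ≤
        K * (Real.log n / Real.sqrt n) ^ r := Pool.Agent.N929.AP.orders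
  refine ⟨Kl.lam, Kl.one_le_lam, Kl.tendsto_lam, fun r hr => ?_, ?_⟩
  · obtain ⟨K, -, h⟩ := hall r hr
    exact ⟨K, h⟩
  obtain ⟨K₁, hK₁, h1⟩ := hall 1 le_rfl
  obtain ⟨K₂, hK₂, h2⟩ := hall 2 (by norm_num)
  have hl0 : 0 < Kl.lam := Kl.lam_pos
  have hl1 : 1 ≤ Kl.lam := Kl.one_le_lam
  have hexp : ∀ {y B : ℝ}, |y| ≤ B → |Real.exp y - 1| ≤ B * Real.exp B := by
    intro y B hy
    have hB : 0 ≤ B := (abs_nonneg y).trans hy
    rw [abs_le] at hy ⊢
    constructor
    · have e1 := Real.add_one_le_exp y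
      have e2 : B ≤ B * Real.exp B := le_mul_of_one_le_right hB (Real.one_le_exp hB)
      linarith [hy.1]
    · have e1 : Real.exp y ≤ Real.exp B := Real.exp_le_exp.2 hy.2
      have e2 : Real.exp B - 1 ≤ B * Real.exp B := by
        have e3 := Real.add_one_le_exp (-B)
        have e4 : Real.exp B * Real.exp (-B) = 1 := by rw [← Real.exp_add]; simp
        nlinarith [Real.exp_pos B]
      linarith
  -- the two differences in terms of the ratios
  obtain ⟨q, hq⟩ : ∃ q : ℕ → ℝ, q = fun n => (Kl.t (n + 1) : ℝ) / Kl.t n := ⟨_, rfl⟩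
  have htp : ∀ n, 1 ≤ n → (0 : ℝ) < Kl.t n := fun n hn => by exact_mod_cast Kl.t_pos hn
  have hqp : ∀ n, 1 ≤ n → 0 < q n := fun n hn => by
    rw [hq]
    exact div_pos (htp _ (by omega)) (htp n hn)
  have hlog : ∀ n, 1 ≤ n → Real.log ((Kl.t n : ℝ) / Kl.lam ^ n) -
      Real.log ((Kl.t (n + 1) : ℝ) / Kl.lam ^ (n + 1)) = -Real.log (q n / Kl.lam) := by
    intro n hn
    have a1 := htp n hn
    have a2 := htp (n + 1) (by omega)
    rw [← Real.log_div (by positivity) (by positivity), ← Real.log_inv]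
    congr 1
    rw [hq]
    field_simp
    ring
  have hx : ∀ n : ℕ, 2 ≤ n → 0 ≤ Real.log n / Real.sqrt n ∧ Real.log n / Real.sqrt n ≤ 2 := by
    intro n hn
    have hn0 : (0 : ℝ) < n := by exact_mod_cast (by omega : 0 < n)
    have hs : 0 < Real.sqrt n := Real.sqrt_pos.2 hn0
    refine ⟨div_nonneg (Real.log_natCast_nonneg n) hs.le, ?_⟩
    rw [div_le_iff₀ hs]
    have e1 : Real.log (Real.sqrt n) ≤ Real.sqrt n := by
      have := Real.log_le_sub_one_of_pos hs
      linarith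
    rw [Real.log_sqrt hn0.le] at e1
    linarith
  have hr1 : ∀ n, 2 ≤ n → |Real.log (q n / Kl.lam)| ≤ K₁ * (Real.log n / Real.sqrt n) := by
    intro n hn
    have e := h1 n hn
    rw [Finset.sum_range_succ, Finset.sum_range_one] at e
    norm_num at e
    rw [← sub_eq_add_neg, hlog n (by omega), abs_neg] at e
    exact e
  have hr2 : ∀ n, 2 ≤ n → |Real.log (q (n + 1) / q n)| ≤ K₂ * (Real.log n ^ 2 / n) := by
    intro n hn
    have e := h2 n hn
    rw [Finset.sum_range_succ, Finset.sum_range_succ, Finset.sum_range_one] at e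
    norm_num [Nat.choose] at e
    have a1 := hlog n (by omega)
    have a2 := hlog (n + 1) (by omega)
    have a3 : Real.log (q (n + 1) / q n) =
        Real.log (q (n + 1) / Kl.lam) - Real.log (q n / Kl.lam) := by
      rw [← Real.log_div (by have := hqp (n + 1) (by omega); positivity)
        (by have := hqp n (by omega); positivity)]
      congr 1
      have := hqp n (by omega)
      field_simp
    have a4 : (Real.log n / Real.sqrt n) ^ 2 = Real.log n ^ 2 / n := by
      rw [div_pow, Real.sq_sqrt (Nat.cast_nonneg n)]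
    rw [a4] at e
    rw [a3]
    have a5 : Real.log (q (n + 1) / Kl.lam) - Real.log (q n / Kl.lam) =
        Real.log ((Kl.t n : ℝ) / Kl.lam ^ n) + -(2 * Real.log ((Kl.t (n + 1) : ℝ) /
          Kl.lam ^ (n + 1))) + Real.log ((Kl.t (n + 2) : ℝ) / Kl.lam ^ (n + 2)) := by
      have a6 : n + 1 + 1 = n + 2 := rfl
      rw [a6] at a2
      linarith
    rw [a5]
    exact e
  have hqb : ∀ n, 2 ≤ n → q n ≤ Kl.lam * Real.exp (2 * K₁) := by
    intro n hn
    have e1 := (le_abs_self _).trans (hr1 n hn)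
    have e2 : K₁ * (Real.log n / Real.sqrt n) ≤ 2 * K₁ := by
      have := (hx n hn).2
      nlinarith
    have e3 := Real.exp_le_exp.2 (e1.trans e2)
    rw [Real.exp_log (by have := hqp n (by omega); positivity), div_le_iff₀ hl0] at e3
    linarith
  refine ⟨Kl.lam * (K₁ * Real.exp (2 * K₁)) +
    Kl.lam * Real.exp (2 * K₁) * (K₂ * Real.exp (4 * K₂)), fun n hn => ⟨?_, ?_⟩⟩
  · have a0 := hqp n (by omega)
    have a1 := hexp (hr1 n hn)
    rw [Real.exp_log (by positivity)] at a1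
    have a2 : (Kl.t (n + 1) : ℝ) / Kl.t n - Kl.lam = Kl.lam * (q n / Kl.lam - 1) := by
      rw [hq]
      field_simp
    rw [a2, abs_mul, abs_of_pos hl0]
    obtain ⟨x0, x1⟩ := hx n hn
    have a3 : Real.exp (K₁ * (Real.log n / Real.sqrt n)) ≤ Real.exp (2 * K₁) := by
      apply Real.exp_le_exp.2
      nlinarith
    have a4 : |q n / Kl.lam - 1| ≤ K₁ * Real.exp (2 * K₁) * (Real.log n / Real.sqrt n) := by
      refine a1.trans ?_
      have : 0 ≤ K₁ * (Real.log n / Real.sqrt n) := by positivity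
      nlinarith
    have a5 : 0 ≤ Kl.lam * Real.exp (2 * K₁) * (K₂ * Real.exp (4 * K₂)) *
        (Real.log n / Real.sqrt n) := by positivity
    nlinarith [mul_le_mul_of_nonneg_left a4 hl0.le]
  · have a0 := hqp n (by omega)
    have a0' := hqp (n + 1) (by omega)
    have a1 := hexp (hr2 n hn)
    rw [Real.exp_log (by positivity)] at a1
    have a2 : (Kl.t (n + 2) : ℝ) / Kl.t (n + 1) - (Kl.t (n + 1) : ℝ) / Kl.t n =
        q n * (q (n + 1) / q n - 1) := by
      have a6 : q n * (q (n + 1) / q n - 1) = q (n + 1) - q n := by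
        field_simp
      rw [a6, hq]
    rw [a2, abs_mul, abs_of_pos a0]
    obtain ⟨x0, x1⟩ := hx n hn
    have a4 : (Real.log n / Real.sqrt n) ^ 2 = Real.log n ^ 2 / n := by
      rw [div_pow, Real.sq_sqrt (Nat.cast_nonneg n)]
    have y0 : 0 ≤ Real.log n ^ 2 / n := by rw [← a4]; positivity
    have y1 : Real.log n ^ 2 / n ≤ 4 := by rw [← a4]; nlinarith
    have a3 : Real.exp (K₂ * (Real.log n ^ 2 / n)) ≤ Real.exp (4 * K₂) := by
      apply Real.exp_le_exp.2
      nlinarith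
    have a5 : |q (n + 1) / q n - 1| ≤ K₂ * Real.exp (4 * K₂) * (Real.log n ^ 2 / n) := by
      refine a1.trans ?_
      have : 0 ≤ K₂ * (Real.log n ^ 2 / n) := by positivity
      nlinarith
    have a7 : 0 ≤ Kl.lam * (K₁ * Real.exp (2 * K₁)) * (Real.log n ^ 2 / n) := by positivity
    have a8 : q n * |q (n + 1) / q n - 1| ≤ Kl.lam * Real.exp (2 * K₁) *
        (K₂ * Real.exp (4 * K₂) * (Real.log n ^ 2 / n)) :=
      mul_le_mul (hqb n hn) a5 (abs_nonneg _) (by positivity)
    nlinarith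

end Pool.Agent.Results.MP_56ddc0_co.AllOrders
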